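import Pool.Agent.N162.GP.Stm
import Pool.Agent.N162.BC.Lie
import Pool.Agent.Y172.Cov3

/-!
# GP/NTW (helper645): the relations given by a null trace
-/

set_option autoImplicit false

open FF Pool.Agent.W603.LV Pool.Agent.N162.BC MvPolynomial
open Pool.Agent.W602.GT

namespace Pool.Agent.N645.GP

/-- derivations dual to algebraically independent elements -/
theorem exists_dual {Ω : Type} [Field Ω] [Algebra ℂ Ω] {n : ℕ} {y : Fin n → Ω}
    (hy : AlgebraicIndependent ℂ y) :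
    ∃ θ : Fin n → Derivation ℂ Ω Ω, ∀ i j, θ i (y j) = if i = j then 1 else 0 := by
  classical
  obtain ⟨t, ht, hb⟩ := exists_isTranscendenceBasis_superset (R := ℂ) (A := Ω)
    (s := Set.range y) hy.coe_range
  choose θ hθ using fun i : Fin n => Pool.Agent.W602.GT.exists_der (L := ℂ) (K := Ω)
    ((↑) : t → Ω) hb (fun z => if (z : Ω) = y i then 1 else 0)
  refine ⟨θ, fun i j => ?_⟩
  have h1 := hθ i ⟨y j, ht ⟨j, rfl⟩⟩
  simp only at h1
  rw [h1]
  by_cases h : i = j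
  · rw [if_pos h, if_pos (by rw [h])]
  · rw [if_neg h, if_neg (fun h2 => h (hy.injective h2.symm))]

/-- a generic choice of derivations -/
theorem exists_generic {Ω I : Type} [Field Ω] [Algebra ℂ Ω] {n : ℕ} (S : Finset I)
    (y : I → Fin n → Ω) (hy : ∀ σ ∈ S, AlgebraicIndependent ℂ (y σ)) :
    ∃ D : Fin n → Derivation ℂ Ω Ω, ∀ σ ∈ S, (Matrix.of fun i j => D i (y σ j)).det ≠ 0 := by
  classical
  have hinf : Infinite Ω := Infinite.of_injective _ (algebraMap ℂ Ω).injective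
  have h1 : ∀ σ : I, ∃ θ : Fin n → Derivation ℂ Ω Ω, σ ∈ S →
      ∀ i j, θ i (y σ j) = if i = j then 1 else 0 := by
    intro σ
    by_cases h : σ ∈ S
    · obtain ⟨θ, hθ⟩ := exists_dual (hy σ h)
      exact ⟨θ, fun _ => hθ⟩
    · exact ⟨fun _ => 0, fun h' => absurd h' h⟩
  choose θ hθ using h1
  obtain ⟨p, hp⟩ : ∃ p : I → MvPolynomial I Ω, p = fun σ =>
    (Matrix.of fun i j => ∑ τ ∈ S, (X τ : MvPolynomial I Ω) * C (θ τ i (y σ j))).det := ⟨_, rfl⟩
  have hev : ∀ (c : I → Ω) σ, eval c (p σ) =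
      (Matrix.of fun i j => ∑ τ ∈ S, c τ * θ τ i (y σ j)).det := by
    intro c σ
    rw [hp]
    simp only
    rw [RingHom.map_det]
    congr 1
    ext i j
    simp
  have hp0 : ∀ σ ∈ S, p σ ≠ 0 := by
    intro σ hσ h0
    have h2 := hev (Pi.single σ 1) σ
    rw [h0, map_zero] at h2
    have h3 : (Matrix.of fun i j => ∑ τ ∈ S, (Pi.single σ 1 : I → Ω) τ * θ τ i (y σ j)) =
        (1 : Matrix (Fin n) (Fin n) Ω) := by
      ext i j
      rw [Matrix.of_apply, Finset.sum_eq_single σ]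
      · rw [Pi.single_eq_same, one_mul, hθ σ hσ, Matrix.one_apply]
      · intro τ _ hτ
        rw [Pi.single_eq_of_ne hτ, zero_mul]
      · intro h
        exact absurd hσ h
    rw [h3, Matrix.det_one] at h2
    exact zero_ne_one h2
  have hprod : ∏ σ ∈ S, p σ ≠ 0 := Finset.prod_ne_zero_iff.2 hp0
  obtain ⟨c, hc⟩ : ∃ c : I → Ω, eval c (∏ σ ∈ S, p σ) ≠ 0 := by
    by_contra hcon
    push Not at hcon
    exact hprod (MvPolynomial.funext fun c => by rw [hcon c, map_zero])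
  rw [map_prod, Finset.prod_ne_zero_iff] at hc
  refine ⟨fun i => ∑ τ ∈ S, c τ • θ τ i, fun σ hσ => ?_⟩
  have h2 := hc σ hσ
  rw [hev] at h2
  have h3 : (Matrix.of fun i j => (∑ τ ∈ S, c τ • θ τ i) (y σ j)) =
      (Matrix.of fun i j => ∑ τ ∈ S, c τ * θ τ i (y σ j)) := by
    ext i j
    rw [Matrix.of_apply, Matrix.of_apply, ← Derivation.coeFnAddMonoidHom_apply, map_sum,
      Finset.sum_apply]
    rfl
  rw [h3]
  exact h2

theorem ntw_ : Pool.Agent.N162.GP.StNTW := by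
  intro n t K Ω _ _ _ _ _ _ hn _ ω₀ hω hne f hf
  obtain ⟨z, e, hz, he⟩ := Pool.Agent.Y172.exists_crd (k := ℂ) (K := K) hn
  have he0 : ω₀ e ≠ 0 := by
    intro h0
    obtain ⟨D, hD⟩ := hne
    apply hD
    rw [pluri_eq hz he hω D, h0]
    unfold stdForm
    rw [zero_mul]
  obtain ⟨D, hD⟩ := exists_generic f.support (fun (σ : K →ₐ[ℂ] Ω) j => σ (z j))
    (fun σ _ => hz.1.map' (f := σ) σ.toRingHom.injective)
  refine ⟨fun σ => (Matrix.of fun i j => D i (σ (z j))).det * σ (ω₀ e), fun σ hσ => ?_,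
    fun b hb => ?_⟩
  · refine mul_ne_zero (hD σ hσ) ?_
    rw [Ne, map_eq_zero_iff σ σ.toRingHom.injective]
    exact he0
  · rw [← hf (fun D => b * ω₀ D) hb z e hz he D]
    refine Finset.sum_congr rfl fun σ _ => ?_
    unfold pullback
    rw [map_mul]
    ring

end Pool.Agent.N645.GP
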